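import Pool.Agent.Q161.ESM.Stm3

/-! # Project ESM (helper161), job TEQ: the types are equivariant -/

set_option autoImplicit false

namespace Pool.Agent.Q241.ESM

open Polynomial NumberField IsDedekindDomain Finset
open Pool.Agent.Q51.EL (pr Abv N1 Par Setup)
open Pool.Agent.Q161.EA (Un Nice)
open Pool.Agent.Q161.OS (Cov Tr Gd)
open Pool.Agent.Q161.ESM

section

variable {K : Type} [Field K] [NumberField K]

lemma intVal_equiv {w w' : HeightOneSpectrum (𝓞 K)} (e : 𝓞 K ≃+* 𝓞 K)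
    (h : ∀ x, x ∈ w.asIdeal ↔ e x ∈ w'.asIdeal) (x : 𝓞 K) : w'.intValuation (e x) = w.intValuation x := by
  have h1 : w'.asIdeal = Ideal.map e w.asIdeal := by
    ext y
    rw [Ideal.mem_map_of_equiv]
    constructor
    · intro hy
      refine ⟨e.symm y, ?_, e.apply_symm_apply y⟩
      rw [h, e.apply_symm_apply]
      exact hy
    · rintro ⟨x, hx, rfl⟩
      exact (h x).1 hx
  have h2 : ∀ (n : ℕ) (x : 𝓞 K), x ∈ w.asIdeal ^ n ↔ e x ∈ w'.asIdeal ^ n := by
    intro n x
    rw [h1, ← Ideal.map_pow, Ideal.mem_map_of_equiv]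
    constructor
    · intro hx
      exact ⟨x, hx, rfl⟩
    · rintro ⟨y, hy, hxy⟩
      rwa [← e.injective hxy]
  by_cases hx : x = 0
  · rw [hx, map_zero, map_zero, map_zero]
  · have hx' : e x ≠ 0 := (map_ne_zero_iff e e.injective).2 hx
    obtain ⟨a, ha⟩ : ∃ a : ℕ, w.intValuation x = WithZero.exp (-(a : ℤ)) := ⟨_, w.intValuation_if_neg hx⟩
    obtain ⟨b, hb⟩ : ∃ b : ℕ, w'.intValuation (e x) = WithZero.exp (-(b : ℤ)) := ⟨_, w'.intValuation_if_neg hx'⟩
    have h3 : ∀ n : ℕ, n ≤ a ↔ n ≤ b := by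
      intro n
      have h4 := w.intValuation_le_pow_iff_mem x n
      have h5 := w'.intValuation_le_pow_iff_mem (e x) n
      rw [ha, WithZero.exp_le_exp] at h4
      rw [hb, WithZero.exp_le_exp] at h5
      have h6 := h4.trans ((h2 n x).trans h5.symm)
      constructor
      · intro hn
        have := h6.1 (by omega)
        omega
      · intro hn
        have := h6.2 (by omega)
        omega
    have h4 : a = b := le_antisymm ((h3 a).1 le_rfl) ((h3 b).2 le_rfl)
    rw [ha, hb, h4]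

lemma val_mv {g : K ≃ₐ[ℚ] K} {w w' : HeightOneSpectrum (𝓞 K)} (h : Mv g w w') (x : K) :
    w'.valuation K (g x) = w.valuation K x := by
  have h1 : ∀ x : 𝓞 K, x ∈ w.asIdeal ↔ (NumberField.RingOfIntegers.mapRingEquiv (g : K ≃+* K)) x ∈ w'.asIdeal :=
    fun x => h x _ rfl
  have h2 : ∀ x : 𝓞 K, w'.valuation K (g (x : K)) = w.valuation K (x : K) := by
    intro x
    have h3 := intVal_equiv _ h1 x
    rw [← w.valuation_of_algebraMap (K := K), ← w'.valuation_of_algebraMap (K := K)] at h3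
    exact h3
  obtain ⟨a, b, hb, rfl⟩ := IsFractionRing.div_surjective (A := 𝓞 K) x
  rw [map_div₀, map_div₀, map_div₀]
  exact congrArg₂ _ (h2 a) (h2 b)

end

lemma pm_bij {J : Type} {f : J → ℤ[X]} {L : J → Type} [∀ j, Field (L j)]
    [∀ j, NumberField (L j)] {K : Type} [Field K] [NumberField K]
    {tt : (j : J) → 𝓞 (L j)} {io : (j : J) → Fin 3 → (L j →+* K)} (hF : Fld f tt io)
    {V : Type} [AddCommGroup V] [DistribMulAction (K ≃ₐ[ℚ] K) V]
    {pm : (K ≃ₐ[ℚ] K) → J → Fin 3 → Fin 3} {cd : V →+ (J → Fin 3 → ZMod 2)} (hV : VS io pm cd)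
    (g : K ≃ₐ[ℚ] K) (j : J) : Function.Bijective (pm g j) := by
  refine Finite.injective_iff_bijective.1 ?_
  intro k k' hk
  apply (hF.bij j).1
  ext y
  apply g.injective
  rw [hV.emb, hV.emb, hk]

theorem teq : S_TEQ := by
  intro J f L _ _ K _ _ tt io hF V _ _ pm cd hV α m l w w' g t hM h j
  have hsurj : ∀ k, ∃ k0, pm g j k0 = k := (pm_bij hF hV g j).2
  have hinj : ∀ k k', pm g j k = pm g j k' → k = k' := fun k k' h => (pm_bij hF hV g j).1 h
  have hval : ∀ k, w'.valuation K (io j (pm g j k) (α j : L j)) = w.valuation K (io j k (α j : L j)) := by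
    intro k
    rw [← hV.emb]
    exact val_mv hM _
  rcases h j with ⟨h1, h2, h3⟩ | ⟨h1, k, h2, h3, h4⟩
  · refine Or.inl ⟨h1, ?_, ?_⟩
    · intro k
      obtain ⟨k0, rfl⟩ := hsurj k
      rw [hV.eqv]
      exact h2 k0
    · intro k
      obtain ⟨k0, rfl⟩ := hsurj k
      rw [hval]
      exact h3 k0
  · refine Or.inr ⟨h1, pm g j k, ⟨?_, ?_⟩, ?_, ?_⟩
    · rw [hV.eqv]
      exact h2.1
    · intro k' hk'
      obtain ⟨k0, rfl⟩ := hsurj k'
      rw [hV.eqv]
      exact h2.2 k0 fun h => hk' (by rw [h])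
    · rw [hval]
      exact h3
    · intro k' hk'
      obtain ⟨k0, rfl⟩ := hsurj k'
      rw [hval]
      exact h4 k0 fun h => hk' (by rw [h])

end Pool.Agent.Q241.ESM
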